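import Mathlib
import Pool.Agent.Helper752.SquareLower

set_option autoImplicit false

/-!
# Lower bounds for networks spanning the trapezoid `a, b, c, d`

`a = (-(2-√3), 2√3-3)`, `b` its mirror image, `c = (3√3-4, 1)`, `d` its mirror image.
-/

namespace Pool.Agent.H312R3

open scoped ENNReal NNReal
open MeasureTheory Metric Pool.Agent.Helper752

/-- Abscissae of `a, b, c, d, t`. -/
noncomputable def zx : Fin 5 → ℝ := ![√3 - 2, √3 - 2, 3 * √3 - 4, 3 * √3 - 4, 8 * √3 / 3 - 4]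
/-- Ordinates of `a, b, c, d, t`. -/
noncomputable def zy : Fin 5 → ℝ := ![2 * √3 - 3, 3 - 2 * √3, 1, -1, 0]
/-- End directions of the tree `S`. -/
noncomputable def ux : Fin 5 → ℝ := ![-1 / 2, -1 / 2, 1 / 2, 1 / 2, 0]
/-- End directions of the tree `S`. -/
noncomputable def uy : Fin 5 → ℝ := ![√3 / 2, -(√3 / 2), √3 / 2, -(√3 / 2), 0]

theorem sq3 : √3 ^ 2 = 3 := Real.sq_sqrt (by norm_num)

theorem sq3_lt : √3 < 1.7321 := by
  rw [Real.sqrt_lt' (by norm_num)]; norm_num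

theorem sq3_gt : 1.7320 < √3 := by
  rw [Real.lt_sqrt (by norm_num)]; norm_num

theorem sum5 (f : Fin 5 → ℝ) (A : Finset (Fin 5)) :
    ∑ i ∈ A, f i = (if 0 ∈ A then f 0 else 0) + (if 1 ∈ A then f 1 else 0)
      + (if 2 ∈ A then f 2 else 0) + (if 3 ∈ A then f 3 else 0) + (if 4 ∈ A then f 4 else 0) := by
  have h : ∑ i ∈ A, f i = ∑ i, if i ∈ A then f i else 0 := by
    rw [Finset.sum_ite_mem]; simp
  rw [h, Fin.sum_univ_five]

/-- Certificates: constant vector fields. -/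
theorem cert {K : Set E2} {p : Fin 5 → E2} {B : ℝ} {M : Set (Finset (Fin 5))}
    (hB : ∀ φ : Fin 5 → E2 → ℝ, (∀ A ∈ M, LipOn K φ A) → (∀ x ∈ K, ∑ i, φ i x = 0) →
      ∑ i, φ i (p i) ≤ B) (X Y : Fin 5 → ℝ) (hX : ∑ i, X i = 0) (hY : ∑ i, Y i = 0)
    (h : ∀ A ∈ M, (∑ i ∈ A, X i) ^ 2 + (∑ i ∈ A, Y i) ^ 2 ≤ 1) :
    ∑ i, (X i * p i 0 + Y i * p i 1) ≤ B := by
  refine hB (lin X Y) (fun A hA => lin_lipOn K X Y A (h A hA)) (fun x _ => ?_)
  have h2 : ∑ i, lin X Y i x = (∑ i, X i) * x 0 + (∑ i, Y i) * x 1 := by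
    simp only [lin, Finset.sum_add_distrib, ← Finset.sum_mul]
  rw [h2, hX, hY]; ring

theorem certS {K : Set E2} {p : Fin 5 → E2} {B : ℝ} {M : Set (Finset (Fin 5))}
    (hB : ∀ φ : Fin 5 → E2 → ℝ, (∀ A ∈ M, LipOn K φ A) → (∀ x ∈ K, ∑ i, φ i x = 0) →
      ∑ i, φ i (p i) ≤ B)
    (hdir : ∀ i, 0 ≤ ux i * (p i 0 - zx i) + uy i * (p i 1 - zy i))
    (h : ∀ A ∈ M, ¬ (0 ∈ A ∧ 2 ∈ A ∧ 1 ∉ A ∧ 3 ∉ A) ∧ ¬ (0 ∉ A ∧ 2 ∉ A ∧ 1 ∈ A ∧ 3 ∈ A)) :
    4 ≤ B := by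
  have h3 := sq3
  have key := cert hB ux uy (by simp [ux, Fin.sum_univ_five]; norm_num)
    (by simp [uy, Fin.sum_univ_five]) ?_
  · simp only [Fin.sum_univ_five] at key
    have h0 := hdir 0
    have h1 := hdir 1
    have h2 := hdir 2
    have h4 := hdir 3
    simp [ux, uy, zx, zy] at key h0 h1 h2 h4
    nlinarith
  · intro A hA
    rw [sum5, sum5]
    have h5 := h A hA
    by_cases b0 : (0 : Fin 5) ∈ A <;> by_cases b1 : (1 : Fin 5) ∈ A <;>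
      by_cases b2 : (2 : Fin 5) ∈ A <;> by_cases b3 : (3 : Fin 5) ∈ A <;>
      simp [ux, uy, b0, b1, b2, b3] at h5 ⊢ <;> nlinarith

/-- End directions of the tree `T`. -/
noncomputable def tx : Fin 5 → ℝ := ![-(√3 / 2), -(√3 / 2), √3 / 2, √3 / 2, 0]
/-- End directions of the tree `T`. -/
noncomputable def ty : Fin 5 → ℝ := ![1 / 2, -1 / 2, 1 / 2, -1 / 2, 0]

theorem certT {K : Set E2} {p : Fin 5 → E2} {B : ℝ} {M : Set (Finset (Fin 5))}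
    (hB : ∀ φ : Fin 5 → E2 → ℝ, (∀ A ∈ M, LipOn K φ A) → (∀ x ∈ K, ∑ i, φ i x = 0) →
      ∑ i, φ i (p i) ≤ B)
    (hp : ∀ i, i ≠ 4 → p i 0 = zx i ∧ p i 1 = zy i)
    (h : ∀ A ∈ M, ¬ (0 ∈ A ∧ 1 ∈ A ∧ 2 ∉ A ∧ 3 ∉ A) ∧ ¬ (0 ∉ A ∧ 1 ∉ A ∧ 2 ∈ A ∧ 3 ∈ A)) :
    4 ≤ B := by
  have h3 := sq3
  have key := cert hB tx ty (by simp [tx, Fin.sum_univ_five])
    (by simp [ty, Fin.sum_univ_five]; norm_num) ?_
  · simp only [Fin.sum_univ_five] at key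
    obtain ⟨h0, h0'⟩ := hp 0 (by decide)
    obtain ⟨h1, h1'⟩ := hp 1 (by decide)
    obtain ⟨h2, h2'⟩ := hp 2 (by decide)
    obtain ⟨h4, h4'⟩ := hp 3 (by decide)
    rw [h0, h0', h1, h1', h2, h2', h4, h4'] at key
    simp [tx, ty, zx, zy] at key
    nlinarith
  · intro A hA
    rw [sum5, sum5]
    have h5 := h A hA
    by_cases b0 : (0 : Fin 5) ∈ A <;> by_cases b1 : (1 : Fin 5) ∈ A <;>
      by_cases b2 : (2 : Fin 5) ∈ A <;> by_cases b3 : (3 : Fin 5) ∈ A <;>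
      simp [tx, ty, b0, b1, b2, b3] at h5 ⊢ <;> nlinarith

/-- The sets allowed next to a set separating `a, c` from `b, d, q`. -/
def Allowed1 (A : Finset (Fin 5)) : Prop :=
  (1 ∉ A ∧ 3 ∉ A ∧ 4 ∉ A) ∨ (0 ∉ A ∧ 2 ∉ A) ∨ (0 ∈ A ∧ 2 ∈ A) ∨ (1 ∈ A ∧ 3 ∈ A ∧ 4 ∈ A)

/-- The sets allowed next to a set separating `b, d` from `a, c, q`. -/
def Allowed2 (A : Finset (Fin 5)) : Prop :=
  (0 ∉ A ∧ 2 ∉ A ∧ 4 ∉ A) ∨ (1 ∉ A ∧ 3 ∉ A) ∨ (1 ∈ A ∧ 3 ∈ A) ∨ (0 ∈ A ∧ 2 ∈ A ∧ 4 ∈ A)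

theorem lam1 {M : Set (Finset (Fin 5))} (hM : Laminar M) {W : Finset (Fin 5)} (hW : W ∈ M)
    (h : (0 ∈ W ∧ 2 ∈ W ∧ 1 ∉ W ∧ 3 ∉ W ∧ 4 ∉ W) ∨ (0 ∉ W ∧ 2 ∉ W ∧ 1 ∈ W ∧ 3 ∈ W ∧ 4 ∈ W)) :
    ∀ A ∈ M, Allowed1 A := by
  intro A hA
  unfold Allowed1
  rcases hM A hA W hW with h1 | h1 | h1
  · rcases h with ⟨h2, h3, h4, h5, h6⟩ | ⟨h2, h3, h4, h5, h6⟩
    · left; exact ⟨fun x => h4 (h1 x), fun x => h5 (h1 x), fun x => h6 (h1 x)⟩
    · right; left; exact ⟨fun x => h2 (h1 x), fun x => h3 (h1 x)⟩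
  · rcases h with ⟨h2, h3, h4, h5, h6⟩ | ⟨h2, h3, h4, h5, h6⟩
    · right; right; left; exact ⟨h1 h2, h1 h3⟩
    · right; right; right; exact ⟨h1 h4, h1 h5, h1 h6⟩
  · have h1' : ∀ i, i ∈ W → i ∉ A := fun i hi hi' => Finset.disjoint_left.1 h1 hi' hi
    rcases h with ⟨h2, h3, h4, h5, h6⟩ | ⟨h2, h3, h4, h5, h6⟩
    · right; left; exact ⟨h1' _ h2, h1' _ h3⟩
    · left; exact ⟨h1' _ h4, h1' _ h5, h1' _ h6⟩

theorem lam2 {M : Set (Finset (Fin 5))} (hM : Laminar M) {W : Finset (Fin 5)} (hW : W ∈ M)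
    (h : (1 ∈ W ∧ 3 ∈ W ∧ 0 ∉ W ∧ 2 ∉ W ∧ 4 ∉ W) ∨ (1 ∉ W ∧ 3 ∉ W ∧ 0 ∈ W ∧ 2 ∈ W ∧ 4 ∈ W)) :
    ∀ A ∈ M, Allowed2 A := by
  intro A hA
  unfold Allowed2
  rcases hM A hA W hW with h1 | h1 | h1
  · rcases h with ⟨h2, h3, h4, h5, h6⟩ | ⟨h2, h3, h4, h5, h6⟩
    · left; exact ⟨fun x => h4 (h1 x), fun x => h5 (h1 x), fun x => h6 (h1 x)⟩
    · right; left; exact ⟨fun x => h2 (h1 x), fun x => h3 (h1 x)⟩
  · rcases h with ⟨h2, h3, h4, h5, h6⟩ | ⟨h2, h3, h4, h5, h6⟩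
    · right; right; left; exact ⟨h1 h2, h1 h3⟩
    · right; right; right; exact ⟨h1 h4, h1 h5, h1 h6⟩
  · have h1' : ∀ i, i ∈ W → i ∉ A := fun i hi hi' => Finset.disjoint_left.1 h1 hi' hi
    rcases h with ⟨h2, h3, h4, h5, h6⟩ | ⟨h2, h3, h4, h5, h6⟩
    · right; left; exact ⟨h1' _ h2, h1' _ h3⟩
    · left; exact ⟨h1' _ h4, h1' _ h5, h1' _ h6⟩

/-- The numerical part: closeness to `a, b, c, d, t`. -/
def Close (p : Fin 5 → E2) : Prop :=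
  (∀ i, |p i 0 - zx i| ≤ 1 / 50) ∧ ∀ i, |p i 1 - zy i| ≤ 1 / 50

theorem certE1 {K : Set E2} {p : Fin 5 → E2} {B : ℝ} {M : Set (Finset (Fin 5))}
    (hB : ∀ φ : Fin 5 → E2 → ℝ, (∀ A ∈ M, LipOn K φ A) → (∀ x ∈ K, ∑ i, φ i x = 0) →
      ∑ i, φ i (p i) ≤ B) (hp : Close p)
    (hAl : ∀ A ∈ M, Allowed1 A)
    (h : ∀ A ∈ M, ¬ (3 ∈ A ∧ 4 ∈ A ∧ 0 ∉ A ∧ 1 ∉ A ∧ 2 ∉ A) ∧
      ¬ (3 ∉ A ∧ 4 ∉ A ∧ 0 ∈ A ∧ 1 ∈ A ∧ 2 ∈ A)) :
    4 ≤ B := by
  have h3 := sq3_lt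
  have h4 := sq3_gt
  have key := cert hB ![-0.975, -0.975, 0.68, 0.68, 0.59] ![0.22, -0.22, 0.733, -0.733, 0]
    (by simp [Fin.sum_univ_five]; norm_num) (by simp [Fin.sum_univ_five]) ?_
  · obtain ⟨hx, hy⟩ := hp
    have x0 := abs_le.1 (hx 0)
    have x1 := abs_le.1 (hx 1)
    have x2 := abs_le.1 (hx 2)
    have x3 := abs_le.1 (hx 3)
    have x4 := abs_le.1 (hx 4)
    have y0 := abs_le.1 (hy 0)
    have y1 := abs_le.1 (hy 1)
    have y2 := abs_le.1 (hy 2)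
    have y3 := abs_le.1 (hy 3)
    simp only [Fin.sum_univ_five] at key
    simp [zx, zy] at key x0 x1 x2 x3 x4 y0 y1 y2 y3
    linarith
  · intro A hA
    rw [sum5, sum5]
    have h5 := h A hA
    have h6 := hAl A hA
    unfold Allowed1 at h6
    by_cases b0 : (0 : Fin 5) ∈ A <;> by_cases b1 : (1 : Fin 5) ∈ A <;>
      by_cases b2 : (2 : Fin 5) ∈ A <;> by_cases b3 : (3 : Fin 5) ∈ A <;>
      by_cases b4 : (4 : Fin 5) ∈ A <;>
      simp [b0, b1, b2, b3, b4] at h5 h6 ⊢ <;> norm_num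

theorem certF1 {K : Set E2} {p : Fin 5 → E2} {B : ℝ} {M : Set (Finset (Fin 5))}
    (hB : ∀ φ : Fin 5 → E2 → ℝ, (∀ A ∈ M, LipOn K φ A) → (∀ x ∈ K, ∑ i, φ i x = 0) →
      ∑ i, φ i (p i) ≤ B) (hp : Close p)
    (hAl : ∀ A ∈ M, Allowed2 A)
    (h : ∀ A ∈ M, ¬ (2 ∈ A ∧ 4 ∈ A ∧ 0 ∉ A ∧ 1 ∉ A ∧ 3 ∉ A) ∧
      ¬ (2 ∉ A ∧ 4 ∉ A ∧ 0 ∈ A ∧ 1 ∈ A ∧ 3 ∈ A)) :
    4 ≤ B := by
  have h3 := sq3_lt
  have h4 := sq3_gt
  have key := cert hB ![-0.975, -0.975, 0.68, 0.68, 0.59] ![0.22, -0.22, 0.733, -0.733, 0]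
    (by simp [Fin.sum_univ_five]; norm_num) (by simp [Fin.sum_univ_five]) ?_
  · obtain ⟨hx, hy⟩ := hp
    have x0 := abs_le.1 (hx 0)
    have x1 := abs_le.1 (hx 1)
    have x2 := abs_le.1 (hx 2)
    have x3 := abs_le.1 (hx 3)
    have x4 := abs_le.1 (hx 4)
    have y0 := abs_le.1 (hy 0)
    have y1 := abs_le.1 (hy 1)
    have y2 := abs_le.1 (hy 2)
    have y3 := abs_le.1 (hy 3)
    have y4 := abs_le.1 (hy 4)
    simp only [Fin.sum_univ_five] at key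
    simp [zx, zy] at key x0 x1 x2 x3 x4 y0 y1 y2 y3 y4
    linarith
  · intro A hA
    rw [sum5, sum5]
    have h5 := h A hA
    have h6 := hAl A hA
    unfold Allowed2 at h6
    by_cases b0 : (0 : Fin 5) ∈ A <;> by_cases b1 : (1 : Fin 5) ∈ A <;>
      by_cases b2 : (2 : Fin 5) ∈ A <;> by_cases b3 : (3 : Fin 5) ∈ A <;>
      by_cases b4 : (4 : Fin 5) ∈ A <;>
      simp [b0, b1, b2, b3, b4] at h5 h6 ⊢ <;> norm_num

theorem certE2 {K : Set E2} {p : Fin 5 → E2} {B : ℝ} {M : Set (Finset (Fin 5))}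
    (hB : ∀ φ : Fin 5 → E2 → ℝ, (∀ A ∈ M, LipOn K φ A) → (∀ x ∈ K, ∑ i, φ i x = 0) →
      ∑ i, φ i (p i) ≤ B) (hp : Close p)
    (hAl : ∀ A ∈ M, Allowed1 A)
    (h : ∀ A ∈ M, ¬ (1 ∈ A ∧ 3 ∈ A ∧ 0 ∉ A ∧ 2 ∉ A ∧ 4 ∉ A) ∧
      ¬ (1 ∉ A ∧ 3 ∉ A ∧ 0 ∈ A ∧ 2 ∈ A ∧ 4 ∈ A)) :
    4 ≤ B := by
  have h3 := sq3_lt
  have h4 := sq3_gt
  have key := cert hB ![-0.944, -0.755, 0.755, 0.5, 0.444] ![0.327, -0.654, 0.654, -0.865, 0.538]
    (by simp [Fin.sum_univ_five]; norm_num) (by simp [Fin.sum_univ_five]; norm_num) ?_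
  · obtain ⟨hx, hy⟩ := hp
    have x0 := abs_le.1 (hx 0)
    have x1 := abs_le.1 (hx 1)
    have x2 := abs_le.1 (hx 2)
    have x3 := abs_le.1 (hx 3)
    have x4 := abs_le.1 (hx 4)
    have y0 := abs_le.1 (hy 0)
    have y1 := abs_le.1 (hy 1)
    have y2 := abs_le.1 (hy 2)
    have y3 := abs_le.1 (hy 3)
    have y4 := abs_le.1 (hy 4)
    simp only [Fin.sum_univ_five] at key
    simp [zx, zy] at key x0 x1 x2 x3 x4 y0 y1 y2 y3 y4
    linarith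
  · intro A hA
    rw [sum5, sum5]
    have h5 := h A hA
    have h6 := hAl A hA
    unfold Allowed1 at h6
    by_cases b0 : (0 : Fin 5) ∈ A <;> by_cases b1 : (1 : Fin 5) ∈ A <;>
      by_cases b2 : (2 : Fin 5) ∈ A <;> by_cases b3 : (3 : Fin 5) ∈ A <;>
      by_cases b4 : (4 : Fin 5) ∈ A <;>
      simp [b0, b1, b2, b3, b4] at h5 h6 ⊢ <;> norm_num

theorem certF2 {K : Set E2} {p : Fin 5 → E2} {B : ℝ} {M : Set (Finset (Fin 5))}
    (hB : ∀ φ : Fin 5 → E2 → ℝ, (∀ A ∈ M, LipOn K φ A) → (∀ x ∈ K, ∑ i, φ i x = 0) →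
      ∑ i, φ i (p i) ≤ B) (hp : Close p)
    (hAl : ∀ A ∈ M, Allowed2 A)
    (h : ∀ A ∈ M, ¬ (0 ∈ A ∧ 2 ∈ A ∧ 1 ∉ A ∧ 3 ∉ A ∧ 4 ∉ A) ∧
      ¬ (0 ∉ A ∧ 2 ∉ A ∧ 1 ∈ A ∧ 3 ∈ A ∧ 4 ∈ A)) :
    4 ≤ B := by
  have h3 := sq3_lt
  have h4 := sq3_gt
  have key := cert hB ![-0.755, -0.944, 0.5, 0.755, 0.444] ![0.654, -0.327, 0.865, -0.654, -0.538]
    (by simp [Fin.sum_univ_five]; norm_num) (by simp [Fin.sum_univ_five]; norm_num) ?_
  · obtain ⟨hx, hy⟩ := hp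
    have x0 := abs_le.1 (hx 0)
    have x1 := abs_le.1 (hx 1)
    have x2 := abs_le.1 (hx 2)
    have x3 := abs_le.1 (hx 3)
    have x4 := abs_le.1 (hx 4)
    have y0 := abs_le.1 (hy 0)
    have y1 := abs_le.1 (hy 1)
    have y2 := abs_le.1 (hy 2)
    have y3 := abs_le.1 (hy 3)
    have y4 := abs_le.1 (hy 4)
    simp only [Fin.sum_univ_five] at key
    simp [zx, zy] at key x0 x1 x2 x3 x4 y0 y1 y2 y3 y4
    linarith
  · intro A hA
    rw [sum5, sum5]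
    have h5 := h A hA
    have h6 := hAl A hA
    unfold Allowed2 at h6
    by_cases b0 : (0 : Fin 5) ∈ A <;> by_cases b1 : (1 : Fin 5) ∈ A <;>
      by_cases b2 : (2 : Fin 5) ∈ A <;> by_cases b3 : (3 : Fin 5) ∈ A <;>
      by_cases b4 : (4 : Fin 5) ∈ A <;>
      simp [b0, b1, b2, b3, b4] at h5 h6 ⊢ <;> norm_num

theorem lowerB {K : Set E2} {p : Fin 5 → E2} {B : ℝ} {M : Set (Finset (Fin 5))}
    (hM : Laminar M)
    (hB : ∀ φ : Fin 5 → E2 → ℝ, (∀ A ∈ M, LipOn K φ A) → (∀ x ∈ K, ∑ i, φ i x = 0) →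
      ∑ i, φ i (p i) ≤ B)
    (hdir : ∀ i, 0 ≤ ux i * (p i 0 - zx i) + uy i * (p i 1 - zy i)) (hp : Close p) :
    4 ≤ B := by
  by_cases h1 : ∀ A ∈ M, ¬ (0 ∈ A ∧ 2 ∈ A ∧ 1 ∉ A ∧ 3 ∉ A) ∧ ¬ (0 ∉ A ∧ 2 ∉ A ∧ 1 ∈ A ∧ 3 ∈ A)
  · exact certS hB hdir h1
  push Not at h1
  obtain ⟨W, hW, hW'⟩ := h1
  have hW2 : (0 ∈ W ∧ 2 ∈ W ∧ 1 ∉ W ∧ 3 ∉ W) ∨ (0 ∉ W ∧ 2 ∉ W ∧ 1 ∈ W ∧ 3 ∈ W) := by tauto
  clear hW'
  by_cases h4 : (4 : Fin 5) ∈ W
  · rcases hW2 with ⟨w0, w2, w1, w3⟩ | ⟨w0, w2, w1, w3⟩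
    · -- type 2
      have hAl := lam2 hM hW (Or.inr ⟨w1, w3, w0, w2, h4⟩)
      by_cases h5 : ∀ A ∈ M, ¬ (0 ∈ A ∧ 2 ∈ A ∧ 1 ∉ A ∧ 3 ∉ A ∧ 4 ∉ A) ∧
          ¬ (0 ∉ A ∧ 2 ∉ A ∧ 1 ∈ A ∧ 3 ∈ A ∧ 4 ∈ A)
      · exact certF2 hB hp hAl h5
      · refine certF1 hB hp hAl ?_
        push Not at h5
        obtain ⟨V, hV, hV'⟩ := h5
        intro A hA
        constructor
        · rintro ⟨a1, a2, a3, a4, a5⟩
          rcases hM A hA V hV with h | h | h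
          · have := h a1; have := h a2; tauto
          · have i0 := @h 0; have i1 := @h 1; have i3 := @h 3; tauto
          · have i0 := fun h2 => Finset.disjoint_left.1 h a1 h2
            have i1 := fun h2 => Finset.disjoint_left.1 h a2 h2
            tauto
        · rintro ⟨a1, a2, a3, a4, a5⟩
          rcases hM A hA V hV with h | h | h
          · have := h a3; have := h a4; have := h a5; tauto
          · have i0 := @h 2; have i1 := @h 4; tauto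
          · have i0 := fun h2 => Finset.disjoint_left.1 h a3 h2
            have i1 := fun h2 => Finset.disjoint_left.1 h a4 h2
            have i2 := fun h2 => Finset.disjoint_left.1 h a5 h2
            tauto
    · -- type 1
      have hAl := lam1 hM hW (Or.inr ⟨w0, w2, w1, w3, h4⟩)
      by_cases h5 : ∀ A ∈ M, ¬ (1 ∈ A ∧ 3 ∈ A ∧ 0 ∉ A ∧ 2 ∉ A ∧ 4 ∉ A) ∧
          ¬ (1 ∉ A ∧ 3 ∉ A ∧ 0 ∈ A ∧ 2 ∈ A ∧ 4 ∈ A)
      · exact certE2 hB hp hAl h5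
      · refine certE1 hB hp hAl ?_
        push Not at h5
        obtain ⟨V, hV, hV'⟩ := h5
        intro A hA
        constructor
        · rintro ⟨a1, a2, a3, a4, a5⟩
          rcases hM A hA V hV with h | h | h
          · have := h a1; have := h a2; tauto
          · have i0 := @h 0; have i1 := @h 1; have i3 := @h 2; tauto
          · have i0 := fun h2 => Finset.disjoint_left.1 h a1 h2
            have i1 := fun h2 => Finset.disjoint_left.1 h a2 h2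
            tauto
        · rintro ⟨a1, a2, a3, a4, a5⟩
          rcases hM A hA V hV with h | h | h
          · have := h a3; have := h a4; have := h a5; tauto
          · have i0 := @h 3; have i1 := @h 4; tauto
          · have i0 := fun h2 => Finset.disjoint_left.1 h a3 h2
            have i1 := fun h2 => Finset.disjoint_left.1 h a4 h2
            have i2 := fun h2 => Finset.disjoint_left.1 h a5 h2
            tauto
  · rcases hW2 with ⟨w0, w2, w1, w3⟩ | ⟨w0, w2, w1, w3⟩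
    · -- type 1
      have hAl := lam1 hM hW (Or.inl ⟨w0, w2, w1, w3, h4⟩)
      by_cases h5 : ∀ A ∈ M, ¬ (1 ∈ A ∧ 3 ∈ A ∧ 0 ∉ A ∧ 2 ∉ A ∧ 4 ∉ A) ∧
          ¬ (1 ∉ A ∧ 3 ∉ A ∧ 0 ∈ A ∧ 2 ∈ A ∧ 4 ∈ A)
      · exact certE2 hB hp hAl h5
      · refine certE1 hB hp hAl ?_
        push Not at h5
        obtain ⟨V, hV, hV'⟩ := h5
        intro A hA
        constructor
        · rintro ⟨a1, a2, a3, a4, a5⟩
          rcases hM A hA V hV with h | h | h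
          · have := h a1; have := h a2; tauto
          · have i0 := @h 0; have i1 := @h 1; have i3 := @h 2; tauto
          · have i0 := fun h2 => Finset.disjoint_left.1 h a1 h2
            have i1 := fun h2 => Finset.disjoint_left.1 h a2 h2
            tauto
        · rintro ⟨a1, a2, a3, a4, a5⟩
          rcases hM A hA V hV with h | h | h
          · have := h a3; have := h a4; have := h a5; tauto
          · have i0 := @h 3; have i1 := @h 4; tauto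
          · have i0 := fun h2 => Finset.disjoint_left.1 h a3 h2
            have i1 := fun h2 => Finset.disjoint_left.1 h a4 h2
            have i2 := fun h2 => Finset.disjoint_left.1 h a5 h2
            tauto
    · -- type 2
      have hAl := lam2 hM hW (Or.inl ⟨w1, w3, w0, w2, h4⟩)
      by_cases h5 : ∀ A ∈ M, ¬ (0 ∈ A ∧ 2 ∈ A ∧ 1 ∉ A ∧ 3 ∉ A ∧ 4 ∉ A) ∧
          ¬ (0 ∉ A ∧ 2 ∉ A ∧ 1 ∈ A ∧ 3 ∈ A ∧ 4 ∈ A)
      · exact certF2 hB hp hAl h5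
      · refine certF1 hB hp hAl ?_
        push Not at h5
        obtain ⟨V, hV, hV'⟩ := h5
        intro A hA
        constructor
        · rintro ⟨a1, a2, a3, a4, a5⟩
          rcases hM A hA V hV with h | h | h
          · have := h a1; have := h a2; tauto
          · have i0 := @h 0; have i1 := @h 1; have i3 := @h 3; tauto
          · have i0 := fun h2 => Finset.disjoint_left.1 h a1 h2
            have i1 := fun h2 => Finset.disjoint_left.1 h a2 h2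
            tauto
        · rintro ⟨a1, a2, a3, a4, a5⟩
          rcases hM A hA V hV with h | h | h
          · have := h a3; have := h a4; have := h a5; tauto
          · have i0 := @h 2; have i1 := @h 4; tauto
          · have i0 := fun h2 => Finset.disjoint_left.1 h a3 h2
            have i1 := fun h2 => Finset.disjoint_left.1 h a4 h2
            have i2 := fun h2 => Finset.disjoint_left.1 h a5 h2
            tauto

theorem lowerA {K : Set E2} {p : Fin 5 → E2} {B : ℝ} {M : Set (Finset (Fin 5))}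
    (hM : Laminar M)
    (hB : ∀ φ : Fin 5 → E2 → ℝ, (∀ A ∈ M, LipOn K φ A) → (∀ x ∈ K, ∑ i, φ i x = 0) →
      ∑ i, φ i (p i) ≤ B)
    (hp : ∀ i, i ≠ 4 → p i 0 = zx i ∧ p i 1 = zy i) :
    4 ≤ B := by
  by_cases h1 : ∀ A ∈ M, ¬ (0 ∈ A ∧ 2 ∈ A ∧ 1 ∉ A ∧ 3 ∉ A) ∧ ¬ (0 ∉ A ∧ 2 ∉ A ∧ 1 ∈ A ∧ 3 ∈ A)
  · refine certS hB (fun i => ?_) h1
    by_cases hi : i = 4
    · subst hi; simp [ux, uy]
    · rw [(hp i hi).1, (hp i hi).2]; simp
  · refine certT hB hp ?_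
    push Not at h1
    obtain ⟨V, hV, hV'⟩ := h1
    intro A hA
    constructor
    · rintro ⟨a1, a2, a3, a4⟩
      rcases hM A hA V hV with h | h | h
      · have := h a1; have := h a2; tauto
      · have i0 := @h 0; have i1 := @h 1; have i2 := @h 2; have i3 := @h 3; tauto
      · have i0 := fun h2 => Finset.disjoint_left.1 h a1 h2
        have i1 := fun h2 => Finset.disjoint_left.1 h a2 h2
        tauto
    · rintro ⟨a1, a2, a3, a4⟩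
      rcases hM A hA V hV with h | h | h
      · have := h a3; have := h a4; tauto
      · have i0 := @h 0; have i1 := @h 1; have i2 := @h 2; have i3 := @h 3; tauto
      · have i0 := fun h2 => Finset.disjoint_left.1 h a3 h2
        have i1 := fun h2 => Finset.disjoint_left.1 h a4 h2
        tauto

/-- Any compact connected plane set containing `a, b, c, d` has length at least `4`. -/
theorem lower_bound_four {K : Set E2} (hK : IsCompact K) (hc : IsConnected K)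
    (hp : ∀ i, i ≠ 4 → (!₂[zx i, zy i] : E2) ∈ K) : ENNReal.ofReal 4 ≤ μH[1] K := by
  by_contra hlt
  push Not at hlt
  have hfin : μH[1] K ≠ ∞ := ne_top_of_lt hlt
  set L := (μH[1] K).toReal with hL
  have hL0 : 0 ≤ L := ENNReal.toReal_nonneg
  have hLlt : L < 4 := by
    rw [hL]
    exact (ENNReal.lt_ofReal_iff_toReal_lt hfin).1 hlt
  let p : Fin 5 → E2 := fun i => if i = 4 then !₂[zx 0, zy 0] else !₂[zx i, zy i]
  have hpK : ∀ i, p i ∈ K := by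
    intro i
    by_cases hi : i = 4
    · simp only [p, hi, if_true]; exact hp 0 (by decide)
    · simp only [p, hi, if_false]; exact hp i hi
  obtain ⟨M, hM, _, hB⟩ := exists_laminar hK hc p hpK L hL0 (by rw [hL, ENNReal.ofReal_toReal hfin])
    ((4 - L) / 2) (by linarith)
  have := lowerA hM hB (by
    intro i hi
    simp [p, hi])
  linarith

/-- Any compact connected plane set containing points near `a, b, c, d, t`, the first four of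
which are placed beyond `a, b, c, d` in the end directions of `S`, has length at least `4`. -/
theorem lower_bound_five {K : Set E2} (hK : IsCompact K) (hc : IsConnected K) (p : Fin 5 → E2)
    (hp : ∀ i, p i ∈ K)
    (hdir : ∀ i, 0 ≤ ux i * (p i 0 - zx i) + uy i * (p i 1 - zy i)) (hcl : Close p) :
    ENNReal.ofReal 4 ≤ μH[1] K := by
  by_contra hlt
  push Not at hlt
  have hfin : μH[1] K ≠ ∞ := ne_top_of_lt hlt
  set L := (μH[1] K).toReal with hL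
  have hL0 : 0 ≤ L := ENNReal.toReal_nonneg
  have hLlt : L < 4 := by
    rw [hL]
    exact (ENNReal.lt_ofReal_iff_toReal_lt hfin).1 hlt
  obtain ⟨M, hM, _, hB⟩ := exists_laminar hK hc p hp L hL0 (by rw [hL, ENNReal.ofReal_toReal hfin])
    ((4 - L) / 2) (by linarith)
  have := lowerB hM hB hdir hcl
  linarith

end Pool.Agent.H312R3
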