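import Mathlib
import Pool.Agent.H312R3.TrapLower

set_option autoImplicit false

/-!
# The two Steiner trees of the trapezoid and the covering set `M`
-/

namespace Pool.Agent.H312R3

open scoped ENNReal NNReal
open MeasureTheory Metric Pool.Agent.Helper752

noncomputable def pa : E2 := !₂[√3 - 2, 2 * √3 - 3]
noncomputable def pb : E2 := !₂[√3 - 2, 3 - 2 * √3]
noncomputable def pc : E2 := !₂[3 * √3 - 4, 1]
noncomputable def pd : E2 := !₂[3 * √3 - 4, -1]
noncomputable def ps : E2 := !₂[0, 0]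
noncomputable def pt : E2 := !₂[8 * √3 / 3 - 4, 0]
noncomputable def te : E2 := !₂[0, 4 * √3 / 3 - 2]
noncomputable def tf : E2 := !₂[0, 2 - 4 * √3 / 3]

/-- The Steiner tree `S`. -/
noncomputable def SS : Set E2 :=
  segment ℝ pa ps ∪ segment ℝ pb ps ∪ segment ℝ ps pt ∪ segment ℝ pt pc ∪ segment ℝ pt pd

/-- The Steiner tree `T`. -/
noncomputable def TT : Set E2 :=
  segment ℝ pa te ∪ segment ℝ pc te ∪ segment ℝ te tf ∪ segment ℝ tf pb ∪ segment ℝ tf pd

theorem compact_segment (a b : E2) : IsCompact (segment ℝ a b) := by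
  rw [segment_eq_image_lineMap]
  exact isCompact_Icc.image AffineMap.lineMap_continuous

theorem conn_segment (a b : E2) : IsConnected (segment ℝ a b) :=
  (convex_segment a b).isConnected ⟨a, left_mem_segment ℝ a b⟩

theorem compact_tree (a b c d e f : E2) :
    IsCompact (segment ℝ a e ∪ segment ℝ b e ∪ segment ℝ e f ∪ segment ℝ f c
      ∪ segment ℝ f d) :=
  ((((compact_segment _ _).union (compact_segment _ _)).union (compact_segment _ _)).union
    (compact_segment _ _)).union (compact_segment _ _)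

theorem conn_tree (a b c d e f : E2) :
    IsConnected (segment ℝ a e ∪ segment ℝ b e ∪ segment ℝ e f ∪ segment ℝ f c
      ∪ segment ℝ f d) := by
  refine IsConnected.union ⟨f, ?_, left_mem_segment ℝ f d⟩ (IsConnected.union
    ⟨f, ?_, left_mem_segment ℝ f c⟩ (IsConnected.union ⟨e, ?_, left_mem_segment ℝ e f⟩
    (IsConnected.union ⟨e, right_mem_segment ℝ a e, right_mem_segment ℝ b e⟩
      (conn_segment _ _) (conn_segment _ _)) (conn_segment _ _)) (conn_segment _ _))
      (conn_segment _ _)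
  · exact Or.inl (Or.inr (right_mem_segment ℝ e f))
  · exact Or.inr (right_mem_segment ℝ e f)
  · exact Or.inr (right_mem_segment ℝ b e)

theorem len_tree (a b c d e f : E2) (k ℓ m : ℝ) (hk : 0 ≤ k) (hℓ : 0 ≤ ℓ) (hm : 0 ≤ m)
    (h1 : dist a e ≤ k) (h2 : dist b e ≤ ℓ) (h3 : dist e f ≤ m) (k' ℓ' : ℝ) (hk' : 0 ≤ k')
    (hℓ' : 0 ≤ ℓ') (h4 : dist f c ≤ k') (h5 : dist f d ≤ ℓ') :
    μH[1] (segment ℝ a e ∪ segment ℝ b e ∪ segment ℝ e f ∪ segment ℝ f c
      ∪ segment ℝ f d) ≤ ENNReal.ofReal (k + ℓ + m + k' + ℓ') := by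
  rw [ENNReal.ofReal_add (by positivity) hℓ', ENNReal.ofReal_add (by positivity) hk',
    ENNReal.ofReal_add (by positivity) hm, ENNReal.ofReal_add hk hℓ]
  have hs : ∀ (a b : E2) (ℓ : ℝ), dist a b ≤ ℓ → μH[1] (segment ℝ a b) ≤ ENNReal.ofReal ℓ := by
    intro a b ℓ h
    rw [hausdorffMeasure_segment, edist_dist]
    exact ENNReal.ofReal_le_ofReal h
  refine (measure_union_le _ _).trans (add_le_add ?_ (hs _ _ _ h5))
  refine (measure_union_le _ _).trans (add_le_add ?_ (hs _ _ _ h4))
  refine (measure_union_le _ _).trans (add_le_add ?_ (hs _ _ _ h3))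
  exact (measure_union_le _ _).trans (add_le_add (hs _ _ _ h1) (hs _ _ _ h2))

theorem dist_le_of (a b c d ℓ : ℝ) (hℓ : 0 ≤ ℓ) (h : (a - c) ^ 2 + (b - d) ^ 2 ≤ ℓ ^ 2) :
    dist (!₂[a, b] : E2) !₂[c, d] ≤ ℓ := by
  rw [EuclideanSpace.dist_eq]
  apply Real.sqrt_le_iff.2 ⟨hℓ, _⟩
  simpa [Fin.sum_univ_two, Real.dist_eq, sq_abs] using h

theorem SS_len : μH[1] SS ≤ ENNReal.ofReal 4 := by
  have h1 := sq3_gt
  have h2 := sq3_lt
  have h3 := sq3
  have h := len_tree pa pb pc pd ps pt (4 - 2 * √3) (4 - 2 * √3) (8 * √3 / 3 - 4)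
    (by linarith) (by linarith) (by linarith)
    (dist_le_of _ _ _ _ _ (by linarith) (by nlinarith))
    (dist_le_of _ _ _ _ _ (by linarith) (by nlinarith))
    (dist_le_of _ _ _ _ _ (by linarith) (by nlinarith))
    (2 * √3 / 3) (2 * √3 / 3) (by positivity) (by positivity)
    (dist_le_of _ _ _ _ _ (by positivity) (by nlinarith))
    (dist_le_of _ _ _ _ _ (by positivity) (by nlinarith))
  have e : (4 - 2 * √3) + (4 - 2 * √3) + (8 * √3 / 3 - 4) + (2 * √3 / 3) + (2 * √3 / 3) = 4 := by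
    ring
  rw [e] at h
  exact h

theorem TT_len : μH[1] TT ≤ ENNReal.ofReal 4 := by
  have h1 := sq3_gt
  have h2 := sq3_lt
  have h3 := sq3
  have h := len_tree pa pc pb pd te tf (4 * √3 / 3 - 2) (6 - 8 * √3 / 3) (8 * √3 / 3 - 4)
    (by linarith) (by linarith) (by linarith)
    (dist_le_of _ _ _ _ _ (by linarith) (by nlinarith))
    (dist_le_of _ _ _ _ _ (by linarith) (by nlinarith))
    (dist_le_of _ _ _ _ _ (by linarith) (by nlinarith))
    (4 * √3 / 3 - 2) (6 - 8 * √3 / 3) (by linarith) (by linarith)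
    (dist_le_of _ _ _ _ _ (by linarith) (by nlinarith))
    (dist_le_of _ _ _ _ _ (by linarith) (by nlinarith))
  have e : (4 * √3 / 3 - 2) + (6 - 8 * √3 / 3) + (8 * √3 / 3 - 4) + (4 * √3 / 3 - 2)
      + (6 - 8 * √3 / 3) = 4 := by
    ring
  rw [e] at h
  exact h

/-- The terminals. -/
noncomputable def wx : Fin 5 → ℝ := ![√3 - 2, √3 - 2, 3 * √3 - 4, 3 * √3 - 4, 0]
/-- The terminals. -/
noncomputable def wy : Fin 5 → ℝ := ![2 * √3 - 3, 3 - 2 * √3, 1, -1, 0]

/-- The five terminals `a, b, c, d, s`. -/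
noncomputable def ww (i : Fin 5) : E2 := !₂[wx i, wy i]

/-- The radius. -/
noncomputable def rr : ℝ := 1 / 100

/-- The five points of `M`. -/
noncomputable def yy (i : Fin 5) : E2 := !₂[zx i + rr * ux i, zy i + rr * uy i]

theorem inj_of {f g : Fin 5 → ℝ}
    (h : ∀ i j, i < j → f i ≠ f j ∨ g i ≠ g j) :
    Function.Injective (fun i => (!₂[f i, g i] : E2)) := by
  intro i j hij
  have h0 : f i = f j := by
    have := congrArg (fun z : E2 => z 0) hij
    simpa using this
  have h1 : g i = g j := by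
    have := congrArg (fun z : E2 => z 1) hij
    simpa using this
  rcases lt_trichotomy i j with h2 | h2 | h2
  · rcases h i j h2 with h3 | h3
    · exact absurd h0 h3
    · exact absurd h1 h3
  · exact h2
  · rcases h j i h2 with h3 | h3
    · exact absurd h0.symm h3
    · exact absurd h1.symm h3

theorem ww_inj : Function.Injective ww := by
  have h1 := sq3_gt
  have h2 := sq3_lt
  apply inj_of
  intro i j hij
  fin_cases i <;> fin_cases j <;> simp at hij <;> simp only [wx, wy] <;>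
    first
    | (left; intro h; simp at h; linarith)
    | (right; intro h; simp at h; linarith)

theorem yy_inj : Function.Injective yy := by
  have h1 := sq3_gt
  have h2 := sq3_lt
  apply inj_of (f := fun i => zx i + rr * ux i) (g := fun i => zy i + rr * uy i)
  intro i j hij
  fin_cases i <;> fin_cases j <;> simp at hij <;> simp only [zx, zy, ux, uy, rr] <;>
    first
    | (left; intro h; simp at h; linarith)
    | (right; intro h; simp at h; linarith)

theorem ww_SS (i : Fin 5) : ww i ∈ SS := by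
  unfold SS
  fin_cases i
  · exact Or.inl (Or.inl (Or.inl (Or.inl (left_mem_segment ℝ _ _))))
  · exact Or.inl (Or.inl (Or.inl (Or.inr (left_mem_segment ℝ _ _))))
  · exact Or.inl (Or.inr (right_mem_segment ℝ _ _))
  · exact Or.inr (right_mem_segment ℝ _ _)
  · exact Or.inl (Or.inl (Or.inl (Or.inl (right_mem_segment ℝ _ _))))

theorem ps_te_tf : ps ∈ segment ℝ te tf := by
  refine ⟨1 / 2, 1 / 2, by norm_num, by norm_num, by norm_num, ?_⟩
  ext i
  fin_cases i
  · simp [te, tf, ps]
  · simp [te, tf, ps]; ring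

theorem ww_TT (i : Fin 5) : ww i ∈ TT := by
  unfold TT
  fin_cases i
  · exact Or.inl (Or.inl (Or.inl (Or.inl (left_mem_segment ℝ _ _))))
  · exact Or.inl (Or.inr (right_mem_segment ℝ _ _))
  · exact Or.inl (Or.inl (Or.inl (Or.inr (left_mem_segment ℝ _ _))))
  · exact Or.inr (right_mem_segment ℝ _ _)
  · exact Or.inl (Or.inl (Or.inr ps_te_tf))

end Pool.Agent.H312R3
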