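import Mathlib
import Pool.Agent.H312R3.TrapTrees

set_option autoImplicit false

/-!
# No terminal is interior to a segment of `S`
-/

namespace Pool.Agent.H312R3

open scoped ENNReal NNReal
open MeasureTheory Metric Pool.Agent.Helper752

/-- linear functionals -/
def fl (α β : ℝ) (z : E2) : ℝ := α * z 0 + β * z 1

theorem fl_comb (α β a b : ℝ) (p q : E2) :
    fl α β (a • p + b • q) = a * fl α β p + b * fl α β q := by
  simp [fl]; ring

theorem seg_lt {α β c : ℝ} {p q z : E2} (hp : fl α β p < c) (hq : fl α β q < c)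
    (hz : z ∈ segment ℝ p q) : fl α β z < c := by
  obtain ⟨a, b, ha, hb, hab, rfl⟩ := hz
  rw [fl_comb]
  rcases eq_or_lt_of_le ha with h | h
  · subst h
    have : b = 1 := by linarith
    subst this
    linarith
  · have hb' : b = 1 - a := by linarith
    subst hb'
    nlinarith [mul_pos h (sub_pos.2 hp), mul_nonneg hb (sub_pos.2 hq).le]

theorem seg_end {α β : ℝ} {p q z : E2} (hq : fl α β q < fl α β p)
    (hz : z ∈ segment ℝ p q) : fl α β z ≤ fl α β p ∧ (fl α β z = fl α β p → z = p) := by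
  obtain ⟨a, b, ha, hb, hab, rfl⟩ := hz
  rw [fl_comb]
  have ha' : a = 1 - b := by linarith
  subst ha'
  constructor
  · nlinarith
  · intro h
    have hb0 : b * (fl α β p - fl α β q) = 0 := by linarith
    have : b = 0 := by
      rcases mul_eq_zero.1 hb0 with h1 | h1
      · exact h1
      · linarith
    subst this
    simp

/-- Exposed points are not interior to segments. -/
theorem not_interior {α β : ℝ} {v : E2} {X : Set E2}
    (h : ∀ z ∈ X, fl α β z ≤ fl α β v ∧ (fl α β z = fl α β v → z = v)) :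
    ¬ ∃ x y : E2, x ≠ y ∧ segment ℝ x y ⊆ X ∧ v ∈ openSegment ℝ x y := by
  rintro ⟨x, y, hxy, hsub, a, b, ha, hb, hab, hv⟩
  obtain ⟨hx, hx'⟩ := h x (hsub (left_mem_segment ℝ x y))
  obtain ⟨hy, hy'⟩ := h y (hsub (right_mem_segment ℝ x y))
  have e : fl α β v = a * fl α β x + b * fl α β y := by rw [← hv, fl_comb]
  have ha' : a = 1 - b := by linarith
  subst ha'
  have h1 : fl α β x = fl α β v := by
    apply le_antisymm hx
    by_contra hcon
    push Not at hcon
    nlinarith
  have h2 : fl α β y = fl α β v := by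
    apply le_antisymm hy
    by_contra hcon
    push Not at hcon
    nlinarith
  exact hxy ((hx' h1).trans (hy' h2).symm)

theorem exposed_a : ∀ z ∈ SS, fl (-1) (1 / 2) z ≤ fl (-1) (1 / 2) pa ∧
    (fl (-1) (1 / 2) z = fl (-1) (1 / 2) pa → z = pa) := by
  have h1 := sq3_gt
  have h2 := sq3_lt
  have lt_of : ∀ z, fl (-1) (1 / 2) z < fl (-1) (1 / 2) pa →
      fl (-1) (1 / 2) z ≤ fl (-1) (1 / 2) pa ∧
      (fl (-1) (1 / 2) z = fl (-1) (1 / 2) pa → z = pa) :=
    fun z h => ⟨h.le, fun h' => absurd h' h.ne⟩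
  have eb : fl (-1) (1 / 2) pb < fl (-1) (1 / 2) pa := by simp [fl, pa, pb]; linarith
  have ec : fl (-1) (1 / 2) pc < fl (-1) (1 / 2) pa := by simp [fl, pa, pc]; linarith
  have ed : fl (-1) (1 / 2) pd < fl (-1) (1 / 2) pa := by simp [fl, pa, pd]; linarith
  have es : fl (-1) (1 / 2) ps < fl (-1) (1 / 2) pa := by simp [fl, pa, ps]; linarith
  have et : fl (-1) (1 / 2) pt < fl (-1) (1 / 2) pa := by simp [fl, pa, pt]; linarith
  rintro z ((((hz | hz) | hz) | hz) | hz)
  · exact seg_end es hz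
  · exact lt_of z (seg_lt eb es hz)
  · exact lt_of z (seg_lt es et hz)
  · exact lt_of z (seg_lt et ec hz)
  · exact lt_of z (seg_lt et ed hz)

theorem exposed_b : ∀ z ∈ SS, fl (-1) (-1 / 2) z ≤ fl (-1) (-1 / 2) pb ∧
    (fl (-1) (-1 / 2) z = fl (-1) (-1 / 2) pb → z = pb) := by
  have h1 := sq3_gt
  have h2 := sq3_lt
  have lt_of : ∀ z, fl (-1) (-1 / 2) z < fl (-1) (-1 / 2) pb →
      fl (-1) (-1 / 2) z ≤ fl (-1) (-1 / 2) pb ∧
      (fl (-1) (-1 / 2) z = fl (-1) (-1 / 2) pb → z = pb) :=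
    fun z h => ⟨h.le, fun h' => absurd h' h.ne⟩
  have ea : fl (-1) (-1 / 2) pa < fl (-1) (-1 / 2) pb := by simp [fl, pa, pb]; linarith
  have ec : fl (-1) (-1 / 2) pc < fl (-1) (-1 / 2) pb := by simp [fl, pb, pc]; linarith
  have ed : fl (-1) (-1 / 2) pd < fl (-1) (-1 / 2) pb := by simp [fl, pb, pd]; linarith
  have es : fl (-1) (-1 / 2) ps < fl (-1) (-1 / 2) pb := by simp [fl, pb, ps]; linarith
  have et : fl (-1) (-1 / 2) pt < fl (-1) (-1 / 2) pb := by simp [fl, pb, pt]; linarith
  rintro z ((((hz | hz) | hz) | hz) | hz)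
  · exact lt_of z (seg_lt ea es hz)
  · exact seg_end es hz
  · exact lt_of z (seg_lt es et hz)
  · exact lt_of z (seg_lt et ec hz)
  · exact lt_of z (seg_lt et ed hz)

theorem exposed_c : ∀ z ∈ SS, fl 1 (1 / 2) z ≤ fl 1 (1 / 2) pc ∧
    (fl 1 (1 / 2) z = fl 1 (1 / 2) pc → z = pc) := by
  have h1 := sq3_gt
  have h2 := sq3_lt
  have lt_of : ∀ z, fl 1 (1 / 2) z < fl 1 (1 / 2) pc →
      fl 1 (1 / 2) z ≤ fl 1 (1 / 2) pc ∧
      (fl 1 (1 / 2) z = fl 1 (1 / 2) pc → z = pc) :=
    fun z h => ⟨h.le, fun h' => absurd h' h.ne⟩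
  have ea : fl 1 (1 / 2) pa < fl 1 (1 / 2) pc := by simp [fl, pa, pc]; linarith
  have eb : fl 1 (1 / 2) pb < fl 1 (1 / 2) pc := by simp [fl, pb, pc]; linarith
  have ed : fl 1 (1 / 2) pd < fl 1 (1 / 2) pc := by simp [fl, pc, pd]
  have es : fl 1 (1 / 2) ps < fl 1 (1 / 2) pc := by simp [fl, pc, ps]; linarith
  have et : fl 1 (1 / 2) pt < fl 1 (1 / 2) pc := by simp [fl, pc, pt]; linarith
  rintro z ((((hz | hz) | hz) | hz) | hz)
  · exact lt_of z (seg_lt ea es hz)
  · exact lt_of z (seg_lt eb es hz)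
  · exact lt_of z (seg_lt es et hz)
  · exact seg_end et (segment_symm ℝ pt pc ▸ hz)
  · exact lt_of z (seg_lt et ed hz)

theorem exposed_d : ∀ z ∈ SS, fl 1 (-1 / 2) z ≤ fl 1 (-1 / 2) pd ∧
    (fl 1 (-1 / 2) z = fl 1 (-1 / 2) pd → z = pd) := by
  have h1 := sq3_gt
  have h2 := sq3_lt
  have lt_of : ∀ z, fl 1 (-1 / 2) z < fl 1 (-1 / 2) pd →
      fl 1 (-1 / 2) z ≤ fl 1 (-1 / 2) pd ∧
      (fl 1 (-1 / 2) z = fl 1 (-1 / 2) pd → z = pd) :=
    fun z h => ⟨h.le, fun h' => absurd h' h.ne⟩
  have ea : fl 1 (-1 / 2) pa < fl 1 (-1 / 2) pd := by simp [fl, pa, pd]; linarith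
  have eb : fl 1 (-1 / 2) pb < fl 1 (-1 / 2) pd := by simp [fl, pb, pd]; linarith
  have ec : fl 1 (-1 / 2) pc < fl 1 (-1 / 2) pd := by simp [fl, pc, pd]; linarith
  have es : fl 1 (-1 / 2) ps < fl 1 (-1 / 2) pd := by simp [fl, pd, ps]; linarith
  have et : fl 1 (-1 / 2) pt < fl 1 (-1 / 2) pd := by simp [fl, pd, pt]; linarith
  rintro z ((((hz | hz) | hz) | hz) | hz)
  · exact lt_of z (seg_lt ea es hz)
  · exact lt_of z (seg_lt eb es hz)
  · exact lt_of z (seg_lt es et hz)
  · exact lt_of z (seg_lt et ec hz)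
  · exact seg_end et (segment_symm ℝ pt pd ▸ hz)

/-- Near the origin `S` consists of three rays. -/
theorem tripod {z : E2} (hz : z ∈ SS) (h : z 0 ≤ 1 / 2) :
    (z 0 ≤ 0 ∧ z 1 = -√3 * z 0) ∨ (z 0 ≤ 0 ∧ z 1 = √3 * z 0) ∨ (0 ≤ z 0 ∧ z 1 = 0) := by
  have h1 := sq3_gt
  have h2 := sq3_lt
  have h3 := sq3
  rcases hz with (((hz | hz) | hz) | hz) | hz
  · left
    obtain ⟨a, b, ha, hb, hab, rfl⟩ := hz
    simp only [pa, ps, PiLp.add_apply, PiLp.smul_apply, smul_eq_mul]
    simp
    constructor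
    · nlinarith
    · linear_combination a * h3
  · right; left
    obtain ⟨a, b, ha, hb, hab, rfl⟩ := hz
    simp only [pb, ps, PiLp.add_apply, PiLp.smul_apply, smul_eq_mul]
    simp
    constructor
    · nlinarith
    · linear_combination (-a) * h3
  · right; right
    obtain ⟨a, b, ha, hb, hab, rfl⟩ := hz
    simp only [pt, ps, PiLp.add_apply, PiLp.smul_apply, smul_eq_mul]
    simp
    nlinarith
  · exfalso
    obtain ⟨a, b, ha, hb, hab, rfl⟩ := hz
    simp only [pt, pc, PiLp.add_apply, PiLp.smul_apply, smul_eq_mul] at h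
    simp at h
    nlinarith
  · exfalso
    obtain ⟨a, b, ha, hb, hab, rfl⟩ := hz
    simp only [pt, pd, PiLp.add_apply, PiLp.smul_apply, smul_eq_mul] at h
    simp at h
    nlinarith

theorem SS_bound {z : E2} (hz : z ∈ SS) : z 0 ≤ 2 := by
  have h1 := sq3_gt
  have h2 := sq3_lt
  have key : fl 1 0 z < 2 := by
    have ea : fl 1 0 pa < 2 := by simp [fl, pa]; linarith
    have eb : fl 1 0 pb < 2 := by simp [fl, pb]; linarith
    have ec : fl 1 0 pc < 2 := by simp [fl, pc]; linarith
    have ed : fl 1 0 pd < 2 := by simp [fl, pd]; linarith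
    have es : fl 1 0 ps < 2 := by simp [fl, ps]
    have et : fl 1 0 pt < 2 := by simp [fl, pt]; linarith
    rcases hz with (((hz | hz) | hz) | hz) | hz
    · exact seg_lt ea es hz
    · exact seg_lt eb es hz
    · exact seg_lt es et hz
    · exact seg_lt et ec hz
    · exact seg_lt et ed hz
  simp [fl] at key
  linarith

theorem origin_not_interior :
    ¬ ∃ x y : E2, x ≠ y ∧ segment ℝ x y ⊆ SS ∧ ps ∈ openSegment ℝ x y := by
  rintro ⟨x, y, hxy, hsub, a, b, ha, hb, hab, hv⟩
  have h3 := sq3_gt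
  have hx := SS_bound (hsub (left_mem_segment ℝ x y))
  have hy := SS_bound (hsub (right_mem_segment ℝ x y))
  have e0 : a * x 0 + b * y 0 = 0 := by
    have := congrArg (fun z : E2 => z 0) hv
    simpa [ps] using this
  have e1 : a * x 1 + b * y 1 = 0 := by
    have := congrArg (fun z : E2 => z 1) hv
    simpa [ps] using this
  have hconv := convex_segment (𝕜 := ℝ) x y
  have hps : ps ∈ segment ℝ x y := ⟨a, b, ha.le, hb.le, hab, hv⟩
  have hmx : (1 / 4 : ℝ) • x + (3 / 4 : ℝ) • ps ∈ SS :=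
    hsub (hconv (left_mem_segment ℝ x y) hps (by norm_num) (by norm_num) (by norm_num))
  have hmy : (1 / 4 : ℝ) • y + (3 / 4 : ℝ) • ps ∈ SS :=
    hsub (hconv (right_mem_segment ℝ x y) hps (by norm_num) (by norm_num) (by norm_num))
  have tx := tripod hmx (by simp [ps]; linarith)
  have ty := tripod hmy (by simp [ps]; linarith)
  simp [ps] at tx ty
  have hx0 : x 0 = 0 ∧ x 1 = 0 ∧ y 0 = 0 ∧ y 1 = 0 := by
    have hs : 0 < √3 := by linarith
    rcases tx with ⟨p1, p2⟩ | ⟨p1, p2⟩ | ⟨p1, p2⟩ <;>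
      rcases ty with ⟨q1, q2⟩ | ⟨q1, q2⟩ | ⟨q1, q2⟩
    all_goals
      have hx00 : x 0 = 0 := by
        by_contra hne
        rcases lt_or_gt_of_ne hne with hlt | hgt
        · have h5 : 0 < y 0 := by
            by_contra hcon
            push Not at hcon
            nlinarith
          first
          | linarith
          | (have h6 : x 1 = 0 := by
              have : a * x 1 = 0 := by rw [q2, mul_zero, add_zero] at e1; exact e1
              rcases mul_eq_zero.1 this with h7 | h7
              · exact absurd h7 ha.ne'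
              · exact h7
             have h8 : √3 * x 0 = 0 := by linarith
             rcases mul_eq_zero.1 h8 with h9 | h9
             · linarith
             · linarith)
        · have h5 : y 0 < 0 := by
            by_contra hcon
            push Not at hcon
            nlinarith
          first
          | linarith
          | (have h6 : y 1 = 0 := by
              have : b * y 1 = 0 := by rw [p2, mul_zero, zero_add] at e1; exact e1
              rcases mul_eq_zero.1 this with h7 | h7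
              · exact absurd h7 hb.ne'
              · exact h7
             have h8 : √3 * y 0 = 0 := by linarith
             rcases mul_eq_zero.1 h8 with h9 | h9
             · linarith
             · linarith)
      have hy00 : y 0 = 0 := by
        rw [hx00, mul_zero, zero_add] at e0
        rcases mul_eq_zero.1 e0 with h7 | h7
        · exact absurd h7 hb.ne'
        · exact h7
      refine ⟨hx00, ?_, hy00, ?_⟩
      · first
        | exact p2
        | (rw [hx00] at p2; linarith)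
      · first
        | exact q2
        | (rw [hy00] at q2; linarith)
  apply hxy
  ext i
  fin_cases i
  · simp [hx0.1, hx0.2.2.1]
  · simp [hx0.2.1, hx0.2.2.2]

theorem not_interior_SS (i : Fin 5) :
    ¬ ∃ x y : E2, x ≠ y ∧ segment ℝ x y ⊆ SS ∧ ww i ∈ openSegment ℝ x y := by
  fin_cases i
  · exact not_interior exposed_a
  · exact not_interior exposed_b
  · exact not_interior exposed_c
  · exact not_interior exposed_d
  · exact origin_not_interior

theorem ps_interior_TT :
    ∃ x y : E2, x ≠ y ∧ segment ℝ x y ⊆ TT ∧ ps ∈ openSegment ℝ x y := by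
  refine ⟨te, tf, ?_, ?_, ?_⟩
  · intro h
    have h1 := sq3_gt
    have := congrArg (fun z : E2 => z 1) h
    simp [te, tf] at this
    linarith
  · intro z hz
    exact Or.inl (Or.inl (Or.inr hz))
  · refine ⟨1 / 2, 1 / 2, by norm_num, by norm_num, by norm_num, ?_⟩
    ext i
    fin_cases i
    · simp [te, tf, ps]
    · simp [te, tf, ps]; ring

theorem SS_ne_TT : SS ≠ TT := by
  intro h
  apply origin_not_interior
  rw [h]
  exact ps_interior_TT

end Pool.Agent.H312R3
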